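import Mathlib
import Pool.Agent.H7.Veto

set_option autoImplicit false

namespace Pool.Agent.Results.MP_193372_co.ChiMax

open Pool.Agent.H7.Veto

theorem result :
    IsGreatest {k : ℕ∞ | ∃ (V : Type) (_ : Fintype V) (G : SimpleGraph V),
      UVI G ∧ G.chromaticNumber = k} 4 ∧
    IsGreatest {k : ℕ∞ | ∃ (V : Type) (_ : Fintype V) (G : SimpleGraph V),
      MUVI G ∧ G.chromaticNumber = k} 3 ∧
    IsGreatest {k : ℕ∞ | ∃ (V : Type) (_ : Fintype V) (G : SimpleGraph V),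
      MPVI G ∧ G.chromaticNumber = k} 3 := by
  obtain ⟨G, h1, h2⟩ := fourteen
  obtain ⟨H, k1, k2⟩ := five
  have e := chi_eq (mpvi_col (muvi_mpvi k1)) k2
  refine ⟨⟨⟨_, inferInstance, G, h1, chi_eq (uvi_col h1) h2⟩, ?_⟩,
    ⟨⟨_, inferInstance, H, k1, e⟩, ?_⟩, ⟨_, inferInstance, H, muvi_mpvi k1, e⟩, ?_⟩
  · rintro _ ⟨V, _, G, h, rfl⟩
    exact (uvi_col h).chromaticNumber_le
  · rintro _ ⟨V, _, G, h, rfl⟩
    exact (mpvi_col (muvi_mpvi h)).chromaticNumber_le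
  · rintro _ ⟨V, _, G, h, rfl⟩
    exact (mpvi_col h).chromaticNumber_le

end Pool.Agent.Results.MP_193372_co.ChiMax
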